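import Pool.Agent.Helper36.EP.UnionCount

/-!
# Log-concavity of the sorting counts of extended promotion passes to disjoint unions
-/

set_option autoImplicit false

namespace Pool.Agent.Results.MP_23e380_co.DisjointUnion

open Pool.Agent.Helper36.EP

/-- If the sequences `a_k(P)` and `a_k(Q)` are log-concave, so is the sequence `a_k` of the
disjoint union of `P` and `Q`. -/
theorem result (P Q : Type) [PartialOrder P] [Fintype P] [PartialOrder Q] [Fintype Q]
    (hP : LogConc P) (hQ : LogConc Q) : LogConc (P ⊕ Q) :=
  hP.union hQ

end Pool.Agent.Results.MP_23e380_co.DisjointUnion
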