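import Pool.Agent.Helper36.EP.OsumCount

/-!
# Log-concavity of the sorting counts of extended promotion for ordinal sums
-/

set_option autoImplicit false

namespace Pool.Agent.Results.MP_23e380_co.OrdinalSum

open Pool.Agent.Helper36.EP

/-- Let `T` be an antichain with as many elements as `R`. If the sequence of the ordinal sum of
`Q` (below) and `T` (above) and the sequence of `R` are log-concave, then so is the sequence of
the ordinal sum of `Q` (below) and `R` (above). -/
theorem result (Q R T : Type) [PartialOrder Q] [Fintype Q] [PartialOrder R] [Fintype R]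
    [PartialOrder T] [Fintype T] (hT : ∀ s t : T, s ≤ t → s = t)
    (hRT : Fintype.card R = Fintype.card T)
    (h1 : LogConc (Q ⊕ₗ T)) (h2 : LogConc R) : LogConc (Q ⊕ₗ R) :=
  LogConc.osum hT hRT h1 h2

end Pool.Agent.Results.MP_23e380_co.OrdinalSum
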