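import Pool.Agent.Helper36.EP.Class

/-!
# Log-concavity of the sorting counts of extended promotion for a class of posets
-/

set_option autoImplicit false

namespace Pool.Agent.Results.MP_23e380_co.TwinPosets

open Pool.Agent.Helper36.EP

/-- Let `P` be a finite poset in which any two incomparable elements with a common upper bound
have the same elements strictly above them and the same elements strictly below them. Then the
sequence `a_k(P)` is log-concave. -/
theorem result (P : Type) [PartialOrder P] [Fintype P] (h : Twin P) : LogConc P :=
  h.logConc

end Pool.Agent.Results.MP_23e380_co.TwinPosets
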